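import Pool.Agent.H18.TC.Fin
import Pool.Agent.H18.TC.LbAsy

/-!
# The Turan number of tight cycles is `n^(r-1) (log n)^(1+o(1))`
-/

open Finset Filter Topology
open Classical

namespace Pool.Agent.Results.MP_d2012b_co.TightCycles

/-- `H` contains a tight cycle of some length `ℓ ≥ r + 1`: distinct vertices `v i`, indexed by
`ZMod ℓ`, such that every `r` cyclically consecutive ones form an edge of `H` -/
def HasTightCycle {V : Type*} (r : ℕ) (H : Finset (Finset V)) : Prop :=
  ∃ ℓ : ℕ, r + 1 ≤ ℓ ∧ ∃ v : ZMod ℓ → V, Function.Injective v ∧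
    ∀ i : ZMod ℓ, univ.image (fun j : Fin r => v (i + (j.val : ZMod ℓ))) ∈ H

/-- the largest number of edges of an `r`-graph on `n` vertices without a tight cycle -/
noncomputable def exTight (r n : ℕ) : ℕ :=
  ((univ : Finset (Finset (Finset (Fin n)))).filter
    (fun H => (∀ e ∈ H, e.card = r) ∧ ¬ HasTightCycle r H)).sup Finset.card

theorem exTight_le {r n : ℕ} {x : ℝ} (hx : 0 ≤ x) (h : ∀ H : Finset (Finset (Fin n)),
    (∀ e ∈ H, e.card = r) → ¬ HasTightCycle r H → (H.card : ℝ) ≤ x) : (exTight r n : ℝ) ≤ x := by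
  rcases Finset.eq_empty_or_nonempty ((univ : Finset (Finset (Finset (Fin n)))).filter
    (fun H => (∀ e ∈ H, e.card = r) ∧ ¬ HasTightCycle r H)) with h0 | h0
  · unfold exTight
    rw [h0]
    simpa using hx
  · obtain ⟨H, hH, hHe⟩ := Finset.exists_mem_eq_sup _ h0 Finset.card
    unfold exTight
    rw [hHe]
    rw [Finset.mem_filter] at hH
    exact h H hH.2.1 hH.2.2

theorem le_exTight {r n : ℕ} {H : Finset (Finset (Fin n))} (h1 : ∀ e ∈ H, e.card = r)
    (h2 : ¬ HasTightCycle r H) : H.card ≤ exTight r n := by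
  unfold exTight
  exact Finset.le_sup (f := Finset.card) (Finset.mem_filter.2 ⟨Finset.mem_univ _, h1, h2⟩)

theorem bounds (r : ℕ) (hr : 3 ≤ r) : ∃ c C : ℝ, 0 < c ∧ 0 < C ∧ ∃ n₀ : ℕ, ∀ n : ℕ, n₀ ≤ n →
    c * (n : ℝ) ^ (r - 1) * (Real.log n / Real.log (Real.log n)) ≤ exTight r n ∧
    (exTight r n : ℝ) ≤ C * (n : ℝ) ^ (r - 1) * Real.log n * (Real.log (Real.log n)) ^ 4 := by
  obtain ⟨C, hC, hup⟩ := Pool.H18.TC.tight_upper r (by omega)
  obtain ⟨c, hc, N0, hlo⟩ := Pool.H18.TC.lb_asym r hr
  refine ⟨c, C, hc, hC, max N0 16, fun n hn => ⟨?_, ?_⟩⟩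
  · obtain ⟨H, h1, h2, h3⟩ := hlo n (le_trans (le_max_left _ _) hn)
    refine le_trans h3 ?_
    exact_mod_cast le_exTight h1 h2
  · have hn16 : 16 ≤ n := le_trans (le_max_right _ _) hn
    refine exTight_le ?_ (fun H h1 h2 => hup n hn16 H h1 h2)
    have : (16 : ℝ) ≤ n := by exact_mod_cast hn16
    have h5 : 0 ≤ Real.log n := Real.log_nonneg (by linarith)
    positivity

theorem limit (r : ℕ) (hr : 3 ≤ r) :
    Tendsto (fun n : ℕ => (Real.log (exTight r n) - ((r : ℝ) - 1) * Real.log n) /
      Real.log (Real.log n)) atTop (𝓝 1) := by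
  obtain ⟨c, C, hc, hC, n₀, hb⟩ := bounds r hr
  -- `u n = log log n → ∞`
  have hu : Tendsto (fun n : ℕ => Real.log (Real.log (n : ℝ))) atTop atTop :=
    Real.tendsto_log_atTop.comp (Real.tendsto_log_atTop.comp tendsto_natCast_atTop_atTop)
  have hlogdiv : Tendsto (fun x : ℝ => Real.log x / x) atTop (𝓝 0) := by
    simpa using Real.tendsto_pow_log_div_mul_add_atTop 1 0 1 one_ne_zero
  have hconst : ∀ a : ℝ, Tendsto (fun x : ℝ => a / x) atTop (𝓝 0) := fun a =>
    tendsto_const_nhds.div_atTop tendsto_id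
  have hlow : Tendsto (fun n : ℕ => 1 + Real.log c / Real.log (Real.log (n : ℝ))
      - Real.log (Real.log (Real.log (n : ℝ))) / Real.log (Real.log (n : ℝ))) atTop (𝓝 1) := by
    have h1 := (hconst (Real.log c)).comp hu
    have h2 := hlogdiv.comp hu
    have h3 := (tendsto_const_nhds (x := (1 : ℝ))).add h1
    have h4 := h3.sub h2
    simpa using h4
  have hupp : Tendsto (fun n : ℕ => 1 + Real.log C / Real.log (Real.log (n : ℝ))
      + 4 * (Real.log (Real.log (Real.log (n : ℝ))) / Real.log (Real.log (n : ℝ)))) atTop (𝓝 1) := by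
    have h1 := (hconst (Real.log C)).comp hu
    have h2 := (hlogdiv.comp hu).const_mul 4
    have h3 := (tendsto_const_nhds (x := (1 : ℝ))).add h1
    have h4 := h3.add h2
    simpa using h4
  have hev : ∀ᶠ n : ℕ in atTop, 1 ≤ Real.log (Real.log (n : ℝ)) := hu.eventually_ge_atTop 1
  have hev2 : ∀ᶠ n : ℕ in atTop, n₀ ≤ n := eventually_ge_atTop n₀
  have hev3 : ∀ᶠ n : ℕ in atTop, 3 ≤ n := eventually_ge_atTop 3
  have hkey : ∀ n : ℕ, 1 ≤ Real.log (Real.log (n : ℝ)) → n₀ ≤ n → 3 ≤ n →
      (1 + Real.log c / Real.log (Real.log (n : ℝ))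
        - Real.log (Real.log (Real.log (n : ℝ))) / Real.log (Real.log (n : ℝ))
        ≤ (Real.log (exTight r n) - ((r : ℝ) - 1) * Real.log n) / Real.log (Real.log n)) ∧
      ((Real.log (exTight r n) - ((r : ℝ) - 1) * Real.log n) / Real.log (Real.log n)
        ≤ 1 + Real.log C / Real.log (Real.log (n : ℝ))
      + 4 * (Real.log (Real.log (Real.log (n : ℝ))) / Real.log (Real.log (n : ℝ)))) := by
    intro n h1 h2 h3
    obtain ⟨hl, hh⟩ := hb n h2
    have hn3 : (3 : ℝ) ≤ n := by exact_mod_cast h3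
    have hnpos : (0 : ℝ) < n := by linarith
    have hL : 0 < Real.log n := Real.log_pos (by linarith)
    have hLL : 0 < Real.log (Real.log n) := by linarith
    have hcastr : ((r - 1 : ℕ) : ℝ) = (r : ℝ) - 1 := by
      rw [Nat.cast_sub (by omega)]
      simp
    have hlpos : 0 < c * (n : ℝ) ^ (r - 1) * (Real.log n / Real.log (Real.log n)) := by positivity
    have hexpos : (0 : ℝ) < exTight r n := lt_of_lt_of_le hlpos hl
    have e1 : Real.log (c * (n : ℝ) ^ (r - 1) * (Real.log n / Real.log (Real.log n)))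
        = Real.log c + ((r : ℝ) - 1) * Real.log n
          + (Real.log (Real.log n) - Real.log (Real.log (Real.log n))) := by
      rw [Real.log_mul (by positivity) (by positivity), Real.log_mul hc.ne' (by positivity),
        Real.log_pow, Real.log_div hL.ne' hLL.ne', hcastr]
    have e2 : Real.log (C * (n : ℝ) ^ (r - 1) * Real.log n * (Real.log (Real.log n)) ^ 4)
        = Real.log C + ((r : ℝ) - 1) * Real.log n + Real.log (Real.log n)
          + 4 * Real.log (Real.log (Real.log n)) := by
      rw [Real.log_mul (by positivity) (by positivity), Real.log_mul (by positivity) hL.ne',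
        Real.log_mul hC.ne' (by positivity), Real.log_pow, Real.log_pow, hcastr]
      norm_num
    have g1 := Real.log_le_log hlpos hl
    have g2 := Real.log_le_log hexpos hh
    rw [e1] at g1
    rw [e2] at g2
    constructor
    · rw [le_div_iff₀ hLL]
      have : (1 + Real.log c / Real.log (Real.log (n : ℝ))
          - Real.log (Real.log (Real.log (n : ℝ))) / Real.log (Real.log (n : ℝ))) *
            Real.log (Real.log (n : ℝ))
          = Real.log (Real.log n) + Real.log c - Real.log (Real.log (Real.log n)) := by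
        field_simp
      rw [this]
      linarith
    · rw [div_le_iff₀ hLL]
      have : (1 + Real.log C / Real.log (Real.log (n : ℝ))
          + 4 * (Real.log (Real.log (Real.log (n : ℝ))) / Real.log (Real.log (n : ℝ)))) *
            Real.log (Real.log (n : ℝ))
          = Real.log (Real.log n) + Real.log C + 4 * Real.log (Real.log (Real.log n)) := by
        field_simp
      rw [this]
      linarith
  refine tendsto_of_tendsto_of_tendsto_of_le_of_le' hlow hupp ?_ ?_
  · filter_upwards [hev, hev2, hev3] with n h1 h2 h3 using (hkey n h1 h2 h3).1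
  · filter_upwards [hev, hev2, hev3] with n h1 h2 h3 using (hkey n h1 h2 h3).2

/-- For every `r ≥ 3` the Turan number of the family of tight cycles is between
`c n^(r-1) log n / log log n` and `C n^(r-1) log n (log log n)^4` for all large `n`; in particular
it is `n^(r-1) (log n)^(1+o(1))`. -/
theorem result (r : ℕ) (hr : 3 ≤ r) :
    (∃ c C : ℝ, 0 < c ∧ 0 < C ∧ ∃ n₀ : ℕ, ∀ n : ℕ, n₀ ≤ n →
      c * (n : ℝ) ^ (r - 1) * (Real.log n / Real.log (Real.log n)) ≤ exTight r n ∧
      (exTight r n : ℝ) ≤ C * (n : ℝ) ^ (r - 1) * Real.log n * (Real.log (Real.log n)) ^ 4) ∧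
    Tendsto (fun n : ℕ => (Real.log (exTight r n) - ((r : ℝ) - 1) * Real.log n) /
      Real.log (Real.log n)) atTop (𝓝 1) :=
  ⟨bounds r hr, limit r hr⟩

end Pool.Agent.Results.MP_d2012b_co.TightCycles
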